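import Pool.Agent.Run7.h2.ExFin

/-!
# Zero in the spectrum: automorphism groups of free polynilpotent groups

A finitely generated exact group embeds coarsely into a Hilbert space (Higson and Roe), so that its
subgroups `π` with a finite classifying space satisfy the strong Novikov conjecture (Yu, Higson,
Skandalis-Tu-Yu): the assembly map `K_*(Bπ) → K_*(C_r^*(π))` is injective. If `π` is the fundamental group
of a closed oriented aspherical manifold `M`, this implies that `H_i(M; C_r^*(π))` is not zero for some
`i` (Lott, The zero-in-the-spectrum question). So Q1 holds for all `M` whose fundamental group is a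
subgroup of one of the groups below.

This theorem of helper2 was first handed in for the strong Novikov conjecture
(`MP_4e1912_gt.AutPolynilpotent`).

`F` is a free group of finite rank and `GG R l` is the iterated lower central series of a normal
subgroup `R`: `GG R [] = R` and `GG R (c :: l) = γ_{c+1} (GG R l)`. So the groups `F / GG ⊤ l` are
the free polynilpotent groups of finite rank, among them the free nilpotent and the free solvable
groups.

(1) The automorphism group and the outer automorphism group of every free polynilpotent group of
finite rank are exact (Yu's property A) and embed coarsely into a Hilbert space.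

(2) Let `F / R` be virtually poly-(torsion-free abelian). Let `P` be a group which acts by
automorphisms on `F / GG R l`, such that the kernel of the action is exact. If the elements of `P`
which act trivially on `F / R` contain the kernel of a homomorphism to an exact group, then `P` is
exact, and so is every quotient of `P` by a virtually solvable normal subgroup.

(3) The same for one step, `F / γ_{c+1}(R)`, if every finitely generated subgroup of `F / R` has a
subgroup of finite index which embeds in the product of a poly-(torsion-free abelian) group and a
right-angled Artin group (for instance if `F / R` is virtually special).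
-/

namespace Pool.Agent.Results.MP_48737f_gt.AutPolynilpotent

open Pool.Agent.N506.EX Pool.Agent.Y51.FP Run7.h2.AutEx

universe u v

theorem result :
    (∀ (X : Type) [Finite X] (l : List ℕ),
      (IsExact (MulAut (FreeGroup X ⧸ GG (⊤ : Subgroup (FreeGroup X)) l)) ∧
        CoarselyEmbeds (MulAut (FreeGroup X ⧸ GG (⊤ : Subgroup (FreeGroup X)) l))) ∧
      (IsExact (Outer (FreeGroup X ⧸ GG (⊤ : Subgroup (FreeGroup X)) l)) ∧
        CoarselyEmbeds (Outer (FreeGroup X ⧸ GG (⊤ : Subgroup (FreeGroup X)) l)))) ∧
    (∀ (X : Type) [Finite X] (R : Subgroup (FreeGroup X)) [R.Normal],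
      VirtPolyTFA (FreeGroup X ⧸ R) → ∀ l : List ℕ, RelExact.{u, v} R (GG R l)) ∧
    (∀ (X : Type) [Finite X] (R : Subgroup (FreeGroup X)) [R.Normal],
      LocVirtSpecial (FreeGroup X ⧸ R) → ∀ c : ℕ, RelExact.{u, v} R (gam R c)) := by
  refine ⟨?_, ?_, ?_⟩
  · intro X _ l
    have h0 := countable_mulAut (GG (⊤ : Subgroup (FreeGroup X)) l)
    have h1 : Countable (Outer (FreeGroup X ⧸ GG (⊤ : Subgroup (FreeGroup X)) l)) :=
      (QuotientGroup.mk_surjective
        (s := (MulAut.conj (G := FreeGroup X ⧸ GG (⊤ : Subgroup (FreeGroup X)) l)).range)).countable
    exact ⟨⟨aut_ex X l, (aut_ex X l).coarselyEmbeds⟩, ⟨out_ex X l, (out_ex X l).coarselyEmbeds⟩⟩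
  · intro X _ R _ hR l
    exact relExact R (GG R l) (ee_all R hR l)
  · intro X _ R _ hR c
    exact relExact R (gam R c) (ee_one R hR c)

end Pool.Agent.Results.MP_48737f_gt.AutPolynilpotent
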