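import Pool.Agent.Run7.h41.QK

/-!
# Zero in the spectrum: automorphism groups of poly-free groups and of iterated surface bundles

A finitely generated exact group embeds coarsely into a Hilbert space (Higson and Roe), so that its
subgroups `π` with a finite classifying space satisfy the strong Novikov conjecture (Yu, Higson,
Skandalis-Tu-Yu): the assembly map `K_*(Bπ) → K_*(C_r^*(π))` is injective. If `π` is the fundamental group
of a closed oriented aspherical manifold `M`, this implies that `H_i(M; C_r^*(π))` is not zero for some
`i` (Lott, The zero-in-the-spectrum question). So Q1 holds for all `M` whose fundamental group is a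
subgroup of one of the groups below.

This theorem of helper41 was first handed in for the strong Novikov conjecture
(`MP_4e1912_gt.AutTowers`).

A group `L` is in the class `IsQ` if its abelianization `A` is torsion-free and not trivial, some
crossed homomorphism `L → ℤ[A]` does not vanish on `[L, L]`, and `[L, L]` contains no finitely
generated normal subgroup of `L` except the trivial one.

(1) **Finiteness theorem.** Every finitely generated group `N` has only finitely many finitely
generated normal subgroups `K` such that `N / K` is in the class.

(2) The class contains the free groups of rank at least two, the fundamental groups of the closed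
orientable surfaces of genus at least two, all free products `A * B` such that `A` and `B` have
torsion-free abelianizations different from zero, and the one-relator groups `⟨a, t, Y | [a, t] P⟩`
with `P ≠ 1` in the commutator subgroup of the free group on `Y`.

(3) Let `M` be a finitely generated normal subgroup of `N` such that `N / M` is finitely generated
and in the class. If `Aut M` and `Aut (N / M)` are exact, then so is `Aut N`. If `Out M` and
`Out (N / M)` are exact, then so is `Out N`.

(4) Towers: let `N` have a subnormal chain of subgroups, such that the lowest one is in a class `B`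
and the quotients are in a class `F`, where all groups in `B` and `F` are finitely generated and
exact and have exact automorphism groups and outer automorphism groups, and `F` is contained in the
class of (1). Then `N`, `Aut N` and `Out N` are exact and embed coarsely into a Hilbert space, and so
does every group which acts on `N` such that the kernel of the action is exact.

(5) In particular this holds if the lowest subgroup is a free abelian group of finite rank (for
instance trivial) and the quotients are free groups of finite rank at least two and surface groups
of genus at least two whose outer automorphism groups are exact.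

(6) The outer automorphism group of the free group of rank two is exact.
-/

namespace Pool.Agent.Results.MP_48737f_gt.AutTowers

open Pool.Agent.N506.EX Run7.h41.PF

universe u v

theorem result :
    -- (1) the finiteness theorem
    (∀ (N : Type u) [Group N], Group.FG N →
      {K : Subgroup N | ∃ _ : K.Normal, K.FG ∧ IsQ (N ⧸ K)}.Finite) ∧
    -- (2) groups in the class
    ((∀ (X : Type) [Nontrivial X], IsQ (FreeGroup X)) ∧
      (∀ g : ℕ, 2 ≤ g → IsQ (Surf g)) ∧
      (∀ (A B : Type) [Group A] [Group B] [IsMulTorsionFree (Abelianization A)]
        [IsMulTorsionFree (Abelianization B)] [Nontrivial (Abelianization A)]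
        [Nontrivial (Abelianization B)], IsQ (Monoid.Coprod A B)) ∧
      (∀ (Y : Type) (P : FreeGroup Y), P ≠ 1 → P ∈ commutator (FreeGroup Y) → IsQ (OR P))) ∧
    -- (3) extensions
    (∀ (N : Type u) [Group N] (M : Subgroup N) [M.Normal], M.FG → Group.FG (N ⧸ M) →
      IsQ (N ⧸ M) →
      (IsExact (MulAut M) → IsExact (MulAut (N ⧸ M)) → IsExact (MulAut N)) ∧
      (IsExact (Outer M) → IsExact (Outer (N ⧸ M)) → IsExact (Outer N))) ∧
    -- (4) towers
    (∀ (B F : ∀ (G : Type) [Group G], Prop), (∀ (G : Type) [Group G], B G → Ax G) →
      (∀ (G : Type) [Group G], F G → IsQ G ∧ Ax G) → ∀ (N : Type) [Group N], Tow B F N →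
        Concl N ∧ ∀ (P : Type) [Group P] (ρ : P →* MulAut N), IsExact ρ.ker → IsExact P) ∧
    -- (5) poly-free groups and iterated surface bundles
    (∀ (N : Type) [Group N],
      Tow (fun (G : Type) _ => ∃ n : ℕ, Nonempty (G ≃* Multiplicative (Fin n → ℤ)))
        (fun (G : Type) _ =>
          (∃ n : ℕ, IsExact (Outer (FreeGroup (Fin (n + 2)))) ∧
            Nonempty (G ≃* FreeGroup (Fin (n + 2)))) ∨
          ∃ g : ℕ, IsExact (Outer (Surf (g + 2))) ∧ Nonempty (G ≃* Surf (g + 2))) N →
        Concl N ∧ ∀ (P : Type) [Group P] (ρ : P →* MulAut N), IsExact ρ.ker → IsExact P) ∧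
    -- (6) rank two
    IsExact (Outer (FreeGroup (Fin 2))) := by
  have h4 : ∀ (B F : ∀ (G : Type) [Group G], Prop), (∀ (G : Type) [Group G], B G → Ax G) →
      (∀ (G : Type) [Group G], F G → IsQ G ∧ Ax G) → ∀ (N : Type) [Group N], Tow B F N →
        Concl N ∧ ∀ (P : Type) [Group P] (ρ : P →* MulAut N), IsExact ρ.ker → IsExact P := by
    intro B F hB hF N _ hN
    have h := tow_ax hB hF N hN
    exact ⟨h.concl, fun P _ ρ hρ => eclass_exact.ext P _ ρ h.aut hρ⟩
  refine ⟨fun N _ hN => finite_normal, ⟨fun X _ => isQ_free X, isQ_surf, fun A B => isQ_coprod A B,
    fun Y P => isQ_OR⟩, fun N _ M _ h1 h2 h3 => exact_ext M h1 h2 h3, h4, ?_, out_F2⟩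
  intro N _ hN
  refine h4 _ _ ?_ ?_ N hN
  · rintro G _ ⟨n, ⟨e⟩⟩
    exact (ax_zn n).congr e.symm
  · rintro G _ (⟨n, h, ⟨e⟩⟩ | ⟨g, h, ⟨e⟩⟩)
    · exact ⟨(isQ_free (Fin (n + 2))).congr e.symm, (ax_free n h).congr e.symm⟩
    · exact ⟨(isQ_surf (g + 2) (by omega)).congr e.symm, (ax_surf g h).congr e.symm⟩

end Pool.Agent.Results.MP_48737f_gt.AutTowers
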