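import Pool.Agent.Run7.h604.HK.Gap

/-!
# Zero in the spectrum and the bottom of the spectrum in high dimensions

A class of closed aspherical manifolds closed under products and containing the circle, or more
generally a class of cocompact complexes (`Cplx`, the cellular chain complexes of the universal
covers), is considered, and a subadditive size `s ≥ 0`, for example the dimension, the largest number
of faces and cofaces of a cell, or the logarithm of the number of the orbits of cells. Zero is in the
spectrum of the Laplacian for all members (of positive dimension) if and only if for each `ε > 0`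
there are arbitrarily large `n` such that the bottom of the spectrum of the Laplacian is at most
`ε s` for all members of dimension `n`. So the conjecture is equivalent to any bound
`λ = o (s)`, uniform in infinitely many dimensions, where `λ = O (s)` is trivial.

For a closed aspherical manifold `M` zero is in the spectrum of the Laplacian if and only if
`H_i (M; C_r^* (π)) ≠ 0` for some `i`.

Outline. The bottom of the spectrum is additive under products, as the mixed terms of the Laplacian
of a product cancel; this is proved here on the square-summable chains of the product of two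
complexes.
-/

set_option autoImplicit false

namespace Pool.Agent.Results.MP_48737f_gt.BottomOfSpectrumLaw

open Pool.Agent.Run7.h604.HK

theorem result (𝒞 : Cplx → Prop) (hp : ∀ A B, 𝒞 A → 𝒞 B → 𝒞 (A.prod B))
    (hT : ∃ T, 𝒞 T ∧ T.dim = 1)
    (s : Cplx → ℝ) (hs : ∀ A B, 𝒞 A → 𝒞 B → s (A.prod B) ≤ s A + s B)
    (hs0 : ∀ A, 𝒞 A → 0 ≤ s A) :
    (∀ A, 𝒞 A → A.dim ≠ 0 → ∀ c, A.BoundedBelow c → c ≤ 0) ↔
      ∀ ε : ℝ, 0 < ε → ∀ N : ℕ, ∃ n ≥ N, ∀ A, 𝒞 A → A.dim = n → ∀ c, A.BoundedBelow c →
        c ≤ ε * s A :=
  Cplx.gap_law_iff 𝒞 hp hT s hs hs0

end Pool.Agent.Results.MP_48737f_gt.BottomOfSpectrumLaw
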