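import Pool.Agent.N506.EX0
import Pool.Agent.N506.EXM
import Pool.Agent.Run7.h822.NV.Defs
import Pool.Agent.Run7.h822.NV.Main

/-!
# Zero in the spectrum: matrix groups over rings of finite depth

A finitely generated exact group embeds coarsely into a Hilbert space (Higson and Roe), so that its
subgroups `π` with a finite classifying space satisfy the strong Novikov conjecture (Yu, Higson,
Skandalis-Tu-Yu): the assembly map `K_*(Bπ) → K_*(C_r^*(π))` is injective. If `π` is the fundamental group
of a closed oriented aspherical manifold `M`, this implies that `H_i(M; C_r^*(π))` is not zero for some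
`i` (Lott, The zero-in-the-spectrum question). So Q1 holds for all `M` whose fundamental group is a
subgroup of one of the groups below.

This theorem of helper822 was first handed in for the strong Novikov conjecture
(`MP_4e1912_gt.MatrixGroupsFiniteDepth`).

The rings of finite depth are the smallest class of (noncommutative) rings which contains the fields
of finite transcendence degree and is closed under subrings of matrix rings, finite products, Ore
extensions of left Ore domains, filtered extensions and uniform unions. Let `R` be a ring with a
nilpotent ideal `ker f` such that every finite subset of the quotient lies in a subring of finite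
depth. Every group with a homomorphism to `GL_n(R)` with exact kernel is exact; if it is countable,
it embeds coarsely into a Hilbert space.
-/

namespace Pool.Agent.Results.MP_48737f_gt.MatrixGroupsFiniteDepth

open Pool.Agent.N506.EX Pool.Agent.Run7.h822.NV

universe u v

theorem result (R R' : Type u) [Ring R] [Ring R'] (f : R →+* R') (m : ℕ)
    (hf : (RingHom.ker f) ^ (m + 1) = ⊥)
    (hR' : ∀ s : Finset R', ∃ (k : ℕ) (S : Subring R'), (s : Set R') ⊆ S ∧ Depth k S)
    (n : ℕ) (P : Type v) [Group P] (φ : P →* (Matrix (Fin n) (Fin n) R)ˣ)
    (hφ : IsExact φ.ker) :
    IsExact P ∧ (Countable P → CoarselyEmbeds P) := by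
  have h1 : IsExact P :=
    (Ex.ext φ (mex_of_nilpotent m (mex_of_depth hR') f hf n) hφ.ex).isExact
  exact ⟨h1, fun _ => h1.coarselyEmbeds⟩

end Pool.Agent.Results.MP_48737f_gt.MatrixGroupsFiniteDepth
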